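import Pool.Agent.Lib.MP_ab4ef0_lc.Final

/-!
The relation of conformal equivalence of the domains `ℂ \ S`, `S` a closed discrete subset of the
plane, is essentially hyperfinite.
-/

/-- Conformal equivalence of complements of closed discrete subsets of the plane is a Borel
equivalence relation (on the standard Borel space of such sets, with the Effros Borel structure)
which is Borel bireducible with a hyperfinite countable Borel equivalence relation. -/
theorem Pool.Agent.Results.MP_ab4ef0_lc.EssHyp.result :
    Pool.Agent.MPab4ef0.IsEssentiallyHyperfinite Pool.Agent.MPab4ef0.confRel :=
  Pool.Agent.MPab4ef0.confRel_essentiallyHyperfinite
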